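import Pool.Agent.Y506.PV.Stm
import Pool.Agent.Y506.RG.Fnl
import Pool.Agent.Y211.FF.Half
import Pool.Agent.Y429.RG.MINKM

/-!
# PV-CHE: sets of measure one half against halfspaces
-/

set_option autoImplicit false

namespace Pool.Agent.Y532.PV

open MeasureTheory Set Filter Topology
open scoped ENNReal InnerProductSpace
open Pool.Agent.W695.KH (Eu EU EV VV Sm Pot Uu)
open Pool.Agent.Y506.RG (EW VW Star LC1 GD Adm pm half_of_star)
open Pool.Agent.Y506.PV

theorem ennreal_sup_aux (a t I : ℝ≥0∞) (h : ∀ r : ℝ, 0 < r → ENNReal.ofReal r ≤ t →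
    a * ENNReal.ofReal r ≤ I) : a * t ≤ I := by
  by_cases h0 : t = 0
  · rw [h0, mul_zero]
    exact zero_le
  by_cases ht : t = ⊤
  · by_cases ha : a = 0
    · rw [ha, zero_mul]
      exact zero_le
    by_contra hn
    rw [not_le] at hn
    have hI : I ≠ ⊤ := ne_top_of_lt hn
    have ha' : a ≠ ⊤ := by
      intro ha'
      have h1 := h 1 one_pos (by rw [ht]; exact le_top)
      rw [ha', ENNReal.ofReal_one, mul_one, top_le_iff] at h1
      exact hI h1
    have h1 := h ((I / a).toReal + 1) (by positivity) (by rw [ht]; exact le_top)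
    rw [ENNReal.ofReal_add ENNReal.toReal_nonneg zero_le_one, ENNReal.ofReal_toReal
      (ENNReal.div_ne_top hI ha), mul_add, ENNReal.mul_div_cancel ha ha', ENNReal.ofReal_one,
      mul_one] at h1
    have h2 : I < I + a := ENNReal.lt_add_right hI ha
    exact absurd h1 (not_le.2 h2)
  · have h1 := h t.toReal (ENNReal.toReal_pos h0 ht) (by rw [ENNReal.ofReal_toReal ht])
    rwa [ENNReal.ofReal_toReal ht] at h1

variable {n : ℕ}

theorem adm_ind {K : Set (Eu (Fin n))} (hcp : IsCompact K) (hint : (interior K).Nonempty) :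
    Adm (ind K) := by
  have hm : MeasurableSet K := hcp.measurableSet
  have hvol : 0 < volume K :=
    lt_of_lt_of_le (isOpen_interior.measure_pos volume hint) (measure_mono interior_subset)
  refine ⟨fun x => indicator_nonneg (fun _ _ => zero_le_one) x, ?_, ?_,
    measurable_const.indicator hm⟩
  · have h1 : (fun x : Eu (Fin n) => (1 + ‖x‖ ^ 2) * ind K x) =
        K.indicator fun x => 1 + ‖x‖ ^ 2 := by
      funext x
      unfold ind
      by_cases hx : x ∈ K
      · rw [indicator_of_mem hx, indicator_of_mem hx, mul_one]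
      · rw [indicator_of_notMem hx, indicator_of_notMem hx, mul_zero]
    rw [h1, integrable_indicator_iff hm]
    have : Continuous fun x : Eu (Fin n) => 1 + ‖x‖ ^ 2 := by fun_prop
    exact this.continuousOn.integrableOn_compact hcp
  · unfold ind
    rw [integral_indicator hm]
    simp only [integral_const, MeasurableSet.univ, measureReal_restrict_apply, univ_inter,
      smul_eq_mul, mul_one]
    exact ENNReal.toReal_pos hvol.ne' hcp.measure_lt_top.ne

theorem pm_ind {K : Set (Eu (Fin n))} (hcp : IsCompact K) :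
    pm (ind K) = (volume K)⁻¹ • volume.restrict K := by
  have hm : MeasurableSet K := hcp.measurableSet
  have h1 : (fun x : Eu (Fin n) => ENNReal.ofReal (ind K x)) = K.indicator 1 := by
    funext x
    unfold ind
    by_cases hx : x ∈ K
    · rw [indicator_of_mem hx, indicator_of_mem hx]
      simp
    · rw [indicator_of_notMem hx, indicator_of_notMem hx]
      simp
  unfold pm
  rw [h1, withDensity_indicator_one hm, lintegral_indicator_one hm]

theorem che : S_CHE := by
  intro c hc
  obtain ⟨C, hC, HH⟩ := Pool.Agent.Y211.FF.half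
  refine ⟨1 / (4 * c) / Real.sqrt C, by positivity, ?_⟩
  intro n K hcp hco hint hst μ hμ t ht S hS2
  have hvol : 0 < volume K :=
    lt_of_lt_of_le (isOpen_interior.measure_pos volume hint) (measure_mono interior_subset)
  obtain ⟨hprob, H⟩ := half_of_star Pool.Agent.Y429.RG.minkm (adm_ind hcp hint) c hc hst n
    LinearMap.id μ (by
      rw [pm_ind hcp, hμ]
      exact (Measure.map_id).symm)
  refine ennreal_sup_aux _ _ _ fun r hr hrt => ?_
  have hvar : ∀ θ : Eu (Fin n), ‖θ‖ = 1 →
      ProbabilityTheory.variance (fun x => ⟪x, θ⟫_ℝ) μ ≤ C / r ^ 2 := by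
    intro θ hθ
    obtain ⟨m, hm⟩ := HH (Fin n) K hcp hco hint μ hμ θ t hθ fun b => ht θ b (by
      intro h0
      rw [h0, norm_zero] at hθ
      exact zero_ne_one hθ)
    have hint' : Integrable (fun x => (⟪θ, x⟫_ℝ - m) ^ 2) μ := by
      rw [hμ]
      refine Integrable.smul_measure ?_ (ENNReal.inv_ne_top.2 hvol.ne')
      have : Continuous fun x : Eu (Fin n) => (⟪θ, x⟫_ℝ - m) ^ 2 := by fun_prop
      exact this.continuousOn.integrableOn_compact hcp
    rw [← ofReal_integral_eq_lintegral_ofReal hint' (Eventually.of_forall fun x => sq_nonneg _)] at hm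
    obtain ⟨W, hW⟩ : ∃ W : ℝ, W = ∫ x, (⟪θ, x⟫_ℝ - m) ^ 2 ∂μ := ⟨_, rfl⟩
    rw [← hW] at hm
    have h1 : ENNReal.ofReal (r ^ 2 * W) ≤ ENNReal.ofReal C := by
      rw [ENNReal.ofReal_mul (by positivity), ENNReal.ofReal_pow hr.le]
      exact (mul_le_mul_left (pow_le_pow_left' hrt 2) _).trans hm
    have h2 : r ^ 2 * W ≤ C := (ENNReal.ofReal_le_ofReal_iff hC.le).1 h1
    have h3 : ProbabilityTheory.variance (fun x => ⟪x, θ⟫_ℝ) μ ≤ W := by
      have h4 : ProbabilityTheory.variance (fun x => ⟪x, θ⟫_ℝ - m) μ =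
          ProbabilityTheory.variance (fun x => ⟪x, θ⟫_ℝ) μ :=
        ProbabilityTheory.variance_sub_const (by fun_prop) m
      rw [← h4]
      refine (ProbabilityTheory.variance_le_expectation_sq (by fun_prop)).trans (le_of_eq ?_)
      rw [hW]
      refine integral_congr_ae (Eventually.of_forall fun x => ?_)
      simp only [Pi.pow_apply]
      rw [real_inner_comm]
    refine h3.trans ?_
    rw [le_div_iff₀ (by positivity)]
    linarith
  have key := H (C / r ^ 2) (by positivity) hvar S hS2
  refine le_trans (le_of_eq ?_) key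
  rw [← ENNReal.ofReal_mul (by positivity), Real.sqrt_div hC.le, Real.sqrt_sq hr.le]
  congr 1
  field_simp

end Pool.Agent.Y532.PV
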